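import Mathlib
import Pool.Agent.H407.Gol.Final

/-!
# A `2`-homogeneous local ring with `ρ₂` Golod and `ρ₃` not Golod

Let `k` be a field, `A = k[[x,y]]/(xy, x²-y³)` and `R = A ⊗ A = k[[x,y,u,v]]/(xy, x²-y³, uv, u²-v³)`.
The ring `R` is a complete intersection of length `25`, it is `2`-homogeneous and `R → R/m²` is
Golod.  The class of `x e_x e_y` is a nonzero element of `Tor₂^A(A/m²,k)` which lifts to
`Tor₂^A(A/m³,k)`, and the product of the two classes (one from each factor `A`) is nonzero in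
`Tor₄^R(R/m³,k)`.  Hence `R → R/m³` is not Golod; the fifth Betti number of `k` over `R/m³` is
smaller than the bound.
-/

set_option autoImplicit false

open CategoryTheory IsLocalRing

namespace Pool.Agent.Results.MP_0ebce1_al.SecondGolodThirdNot

/-- The Betti number `dim_k Tor_i^R(M, k)`, `k` the residue field of the local ring `R`: the length
of Mathlib's `Tor`. -/
noncomputable def betti (R : Type) [CommRing R] [IsLocalRing R] (M : Type) [AddCommGroup M]
    [Module R M] (i : ℕ) : ℕ :=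
  (Module.length R (((Tor (ModuleCat.{0} R) i).obj (ModuleCat.of R M)).obj
    (ModuleCat.of R (ResidueField R)))).toNat

/-- The Poincaré series `P^R_M(z) = ∑ᵢ dim_k Tor_i^R(M, k) zⁱ`. -/
noncomputable def poincare (R : Type) [CommRing R] [IsLocalRing R] (M : Type) [AddCommGroup M]
    [Module R M] : PowerSeries ℤ := PowerSeries.mk fun i => (betti R M i : ℤ)

/-- The (surjective, local) homomorphism `R → S` is Golod:
`P^S_k(z) · (1 - z (P^R_S(z) - 1)) = P^R_k(z)`. -/
def IsGolod (R S : Type) [CommRing R] [IsLocalRing R] [CommRing S] [IsLocalRing S]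
    [Algebra R S] : Prop :=
  poincare S (ResidueField S) * (1 - PowerSeries.X * (poincare R S - 1)) =
    poincare R (ResidueField R)

/-- `R` is `t`-homogeneous: its completion is `Q/I` with `(Q, n)` regular local, `I ⊆ n²`,
`I ⊆ nᵗ` and `I ∩ nᵗ⁺¹ ⊆ n I`. -/
def IsTHomogeneous (t : ℕ) (R : Type) [CommRing R] [IsLocalRing R] : Prop :=
  ∃ (Q : Type) (_ : CommRing Q) (_ : IsRegularLocalRing Q) (I : Ideal Q),
    Nonempty (AdicCompletion (maximalIdeal R) R ≃+* Q ⧸ I) ∧
    I ≤ maximalIdeal Q ^ 2 ∧ I ≤ maximalIdeal Q ^ t ∧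
    I ⊓ maximalIdeal Q ^ (t + 1) ≤ maximalIdeal Q * I

/-- For every field `k` there is a `2`-homogeneous Noetherian local ring `R` with residue field `k`
such that `ρ₂ : R → R/m²` is Golod and `ρ₃ : R → R/m³` is not Golod. -/
theorem result (k : Type) [Field k] :
    ∃ (R : Type) (_ : CommRing R) (_ : IsLocalRing R) (_ : IsNoetherianRing R)
      (_ : IsLocalRing (R ⧸ maximalIdeal R ^ 2)) (_ : IsLocalRing (R ⧸ maximalIdeal R ^ 3)),
      Nonempty (ResidueField R ≃+* k) ∧ IsTHomogeneous 2 R ∧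
      IsGolod R (R ⧸ maximalIdeal R ^ 2) ∧ ¬ IsGolod R (R ⧸ maximalIdeal R ^ 3) := by
  refine ⟨Pool.Agent.H407.Gol.RR k, inferInstance, inferInstance, inferInstance,
    Pool.Agent.H407.Gol.S2_local, Pool.Agent.H407.Gol.S3_local,
    Pool.Agent.H407.Gol.res_equiv k, ?_, Pool.Agent.H407.Gol.golod_two k,
    Pool.Agent.H407.Gol.not_golod_three k⟩
  obtain ⟨Q, h1, h2, I, h3, h4, h5⟩ := Pool.Agent.H407.Gol.pres k
  exact ⟨Q, h1, h2, I, h3, h4, h4, h5⟩

end Pool.Agent.Results.MP_0ebce1_al.SecondGolodThirdNot
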